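import Pool.Agent.Helper1.All.LIN
import Pool.Agent.Helper35.T1.CLU

/-!
PROJECT UNEQUALNAGATA: the lattice part of one cell. A rectangle of width `W` and height `H` is cut by
guillotine cuts into `w i × h i`, `i ∈ A`; the lattice points `(j, n)` of the triangle
`-al (t - j) < n < be (t - j)` and its apex are independent for suitable points of multiplicities `m i`.
-/

set_option autoImplicit false

noncomputable section

namespace Pool.Agent.Helper35.UQ.CELL

open Pool.Agent.Helper97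
open Pool.Agent.Helper97.Nag Pool.Agent.Helper1.All Pool.Agent.Helper98.UN
open Pool.Agent.Helper35.Nag.TRN (card_le spread)
open Pool.Agent.Helper35.T1.CNT (InTE)
open Pool.Agent.Helper35.T1.CLU (shear)

/-- the region of a cell -/
def InC (t al be : ℝ) (j : ℕ) (n : ℤ) : Prop :=
  ((j : ℝ) < t ∧ -al * (t - j) < n ∧ (n : ℝ) < be * (t - j)) ∨ ((j : ℝ) = t ∧ n = 0)

/-- the count of the rows of the triangle of angle `E` -/
theorem count (t rho E o B R : ℝ) (h0 : 0 ≤ rho) (hE : 0 < E) (hBpos : 0 < B)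
    (h9 : E * R ≤ (rho + E) ^ 2) (hd : (rho + E) * t ≤ B) (S : Finset (ℕ × ℤ))
    (hS : ∀ q ∈ S, InTE t rho E o q.1 q.2) (i : ℕ) : nr S (i + 1) ≤ ⌈B - i * R⌉₊ := by
  have hc : 0 < rho + E := by linarith
  obtain rfl | hi := Nat.eq_zero_or_pos i
  · -- one point in the row
    have e0 : B - ((0 : ℕ) : ℝ) * R = B := by
      rw [Nat.cast_zero, zero_mul, sub_zero]
    rw [e0]
    have hN : (0 : ℝ) < (⌈B⌉₊ : ℝ) := by exact_mod_cast Nat.ceil_pos.2 hBpos
    have hle : B ≤ (⌈B⌉₊ : ℝ) := Nat.le_ceil B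
    have hsub : ((S.image Prod.snd).filter fun X => 0 + 1 ≤ rl S X) ⊆
        Finset.Ico ⌈-o⌉ (⌈-o⌉ + (⌈B⌉₊ : ℤ)) := by
      intro X hX
      rw [Finset.mem_filter, Finset.mem_image] at hX
      obtain ⟨⟨q, hq, rfl⟩, -⟩ := hX
      have hlow : -o ≤ (q.2 : ℝ) := by
        rcases hS q hq with ⟨hjd, h1, h3⟩ | ⟨hjd, h1⟩
        · have hv : 0 < t - q.1 := by linarith
          have : 0 ≤ rho * (t - q.1) := mul_nonneg h0 hv.le
          linarith
        · linarith
      have hup : (q.2 : ℝ) < -o + (⌈B⌉₊ : ℝ) := by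
        rcases hS q hq with ⟨hjd, h1, h3⟩ | ⟨hjd, h1⟩
        · have h5 : (rho + E) * (t - q.1) ≤ (rho + E) * t := by
            apply mul_le_mul_of_nonneg_left _ hc.le
            have : (0 : ℝ) ≤ q.1 := Nat.cast_nonneg _
            linarith
          linarith
        · linarith
      rw [Finset.mem_Ico]
      constructor
      · exact Int.ceil_le.mpr hlow
      · have h6 : (q.2 : ℝ) < ((⌈-o⌉ + (⌈B⌉₊ : ℤ) : ℤ) : ℝ) := by
          push_cast
          have := Int.le_ceil (-o)
          linarith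
        exact_mod_cast h6
    calc nr S (0 + 1) ≤ (Finset.Ico ⌈-o⌉ (⌈-o⌉ + (⌈B⌉₊ : ℤ))).card := Finset.card_le_card hsub
      _ = ⌈B⌉₊ := by
        rw [Int.card_Ico, add_sub_cancel_left, Int.toNat_natCast]
  · -- at least two points
    have hi' : (1 : ℝ) ≤ i := by exact_mod_cast hi
    apply card_le (a := i * rho * (rho + E) / E - o) (c := (rho + E) * (t - i) - o)
    · intro X hX
      rw [Finset.mem_filter, Finset.mem_image] at hX
      obtain ⟨-, hcard⟩ := hX
      unfold rl at hcard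
      have hinj : Set.InjOn (fun q : ℕ × ℤ => (q.1 : ℤ)) (S.filter fun q => q.2 = X) := by
        intro p hp q hq hpq
        rw [Finset.mem_coe, Finset.mem_filter] at hp hq
        simp only [Nat.cast_inj] at hpq
        exact Prod.ext hpq (hp.2.trans hq.2.symm)
      have hcard' : i + 1 ≤ ((S.filter fun q => q.2 = X).image
          (fun q : ℕ × ℤ => (q.1 : ℤ))).card := by
        rw [Finset.card_image_of_injOn hinj]
        exact hcard
      obtain ⟨x, hx, y, hy, hxy⟩ := spread hcard'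
      rw [Finset.mem_image] at hx hy
      obtain ⟨p, hp, rfl⟩ := hx
      obtain ⟨q, hq, rfl⟩ := hy
      rw [Finset.mem_filter] at hp hq
      obtain ⟨hpS, hpX⟩ := hp
      obtain ⟨hqS, hqX⟩ := hq
      have hIp := hS p hpS
      have hIq := hS q hqS
      rw [hpX] at hIp
      rw [hqX] at hIq
      have hxy' : (p.1 : ℝ) + i ≤ q.1 := by exact_mod_cast hxy
      have hjd : (q.1 : ℝ) ≤ t := by
        rcases hIq with ⟨h3, -, -⟩ | ⟨h3, -⟩
        · exact h3.le
        · exact h3.le
      have hp1 : rho * (t - p.1) < X + o := by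
        rcases hIp with ⟨h3, h4, -⟩ | ⟨h3, -⟩
        · exact h4
        · exfalso
          linarith
      have hX : 0 < (X : ℝ) + o := by
        refine lt_of_le_of_lt (mul_nonneg h0 ?_) hp1
        linarith
      have hq1 : (X : ℝ) + o < (rho + E) * (t - q.1) := by
        rcases hIq with ⟨-, -, h4⟩ | ⟨-, h4⟩
        · exact h4
        · exfalso
          linarith
      constructor
      · -- lower bound
        have e1 : (rho + E) * (rho * (t - p.1)) < (rho + E) * (X + o) :=
          mul_lt_mul_of_pos_left hp1 hc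
        have e2 : rho * ((X : ℝ) + o) ≤ rho * ((rho + E) * (t - q.1)) :=
          mul_le_mul_of_nonneg_left hq1.le h0
        have e3 : rho * (rho + E) * ((p.1 : ℝ) + i) ≤ rho * (rho + E) * q.1 :=
          mul_le_mul_of_nonneg_left hxy' (mul_nonneg h0 hc.le)
        have e4 : i * rho * (rho + E) / E < X + o := by
          rw [div_lt_iff₀ hE]
          nlinarith
        linarith
      · have e5 : (rho + E) * (t - q.1) ≤ (rho + E) * (t - i) := by
          apply mul_le_mul_of_nonneg_left _ hc.le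
          have : (0 : ℝ) ≤ p.1 := Nat.cast_nonneg _
          linarith
        linarith
    · refine le_trans ?_ (Nat.le_ceil _)
      have hi0 : (0 : ℝ) ≤ i := Nat.cast_nonneg i
      have e1 : R ≤ (rho + E) ^ 2 / E := by
        rw [le_div_iff₀ hE]
        linarith
      have e2 : (rho + E) * (t - i) - o - (i * rho * (rho + E) / E - o) =
          (rho + E) * t - i * ((rho + E) ^ 2 / E) := by
        field_simp
        ring
      rw [e2]
      have e3 : (i : ℝ) * R ≤ i * ((rho + E) ^ 2 / E) := mul_le_mul_of_nonneg_left e1 hi0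
      linarith

/-- the shear of a set -/
def sh (e : ℤ) (q : ℕ × ℤ) : ℕ × ℤ := (q.1, q.2 - e * q.1)

theorem sh_inj (e : ℤ) : Function.Injective (sh e) := by
  intro p q hpq
  have h1 := congrArg Prod.fst hpq
  have h2 := congrArg Prod.snd hpq
  simp only [sh] at h1 h2
  rw [h1] at h2
  exact Prod.ext h1 (by linarith)

/-- diagrams only see the points of `A` -/
theorem dg_ite {n : ℕ} {m : Fin n → ℕ} {A : Finset (Fin n)} {lam : ℕ → ℕ} (h : Dg m A lam) :
    ∀ B : Finset (Fin n), A ⊆ B → Dg (fun i => if i ∈ B then m i else 0) A lam := by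
  induction h with
  | pt i =>
    intro B hB
    have h1 := Dg.pt (m := fun i => if i ∈ B then m i else 0) i
    rw [if_pos (hB (Finset.mem_singleton_self i))] at h1
    exact h1
  | row A₁ A₂ lam mu hAB _ _ ih1 ih2 =>
    intro B hB
    exact Dg.row A₁ A₂ lam mu hAB (ih1 B (Finset.union_subset_left hB))
      (ih2 B (Finset.union_subset_right hB))
  | col A₁ A₂ lam mu hAB _ _ ih1 ih2 =>
    intro B hB
    exact Dg.col A₁ A₂ lam mu hAB (ih1 B (Finset.union_subset_left hB))
      (ih2 B (Finset.union_subset_right hB))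

theorem aux1 (u v : ℚ) (hu : u ≠ 0) (e : ℤ) (j β : ℕ) (n : ℤ) :
    ((j.choose β : ℕ) : ℚ) * (v ^ j * u ^ (n - e * j)) =
      (v * u ^ (-e)) ^ β * (((j.choose β : ℕ) : ℚ) * (v * u ^ (-e)) ^ (j - β) * u ^ n) := by
  by_cases hβ : β ≤ j
  · have h4 : (v * u ^ (-e)) ^ β * (v * u ^ (-e)) ^ (j - β) = v ^ j * u ^ (-(e * j)) := by
      rw [← pow_add, Nat.add_sub_cancel' hβ, mul_pow, ← zpow_natCast (u ^ (-e)), ← zpow_mul,
        neg_mul]
    have h5 : u ^ (n - e * j) = u ^ (-(e * j)) * u ^ n := by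
      rw [← zpow_add₀ hu]
      congr 1
      ring
    calc ((j.choose β : ℕ) : ℚ) * (v ^ j * u ^ (n - e * j))
        = ((j.choose β : ℕ) : ℚ) * ((v ^ j * u ^ (-(e * j))) * u ^ n) := by
          rw [h5]
          ring
      _ = _ := by
          rw [← h4]
          ring
  · rw [Nat.choose_eq_zero_of_lt (by omega)]
    simp

theorem aux2 (v : ℚ) (j β : ℕ) :
    ((j.choose β : ℕ) : ℚ) * v ^ j = v ^ β * (((j.choose β : ℕ) : ℚ) * v ^ (j - β)) := by
  by_cases hβ : β ≤ j
  · have h4 : v ^ β * v ^ (j - β) = v ^ j := by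
      rw [← pow_add, Nat.add_sub_cancel' hβ]
    rw [← h4]
    ring
  · rw [Nat.choose_eq_zero_of_lt (by omega)]
    simp

/-- conditions on a sheared set -/
theorem indep_sh (hSPN : Tate.S_SPN) {n : ℕ} {m : Fin n → ℕ} {u v : Fin n → ℚ} (hu : ∀ i, 0 < u i)
    (hv : ∀ i, 0 < v i) {e : ℤ} {S : Finset (ℕ × ℤ)} (h : IndepC m u v (S.image (sh e))) :
    IndepC m u (fun i => v i * u i ^ (-e)) S := by
  classical
  intro a ha
  have hres := h (fun q' => a (q'.1, q'.2 + e * q'.1)) ?_
  · intro q hq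
    have h1 := hres (sh e q) (Finset.mem_image_of_mem _ hq)
    have h2 : ((sh e q).1, (sh e q).2 + e * (sh e q).1) = q := Prod.ext rfl (by simp [sh])
    rwa [h2] at h1
  · intro l α β hαβ
    rw [Finset.sum_image (fun p _ q _ h => sh_inj e h)]
    have hu0 : u l ≠ 0 := (hu l).ne'
    have hv0 : v l ≠ 0 := (hv l).ne'
    have hinj : Set.InjOn (fun q : ℕ × ℤ => ((q.1 : ℤ), q.2)) (S : Set (ℕ × ℤ)) := by
      intro p _ q _ hpq
      simp only [Prod.mk.injEq, Nat.cast_inj] at hpq
      exact Prod.ext hpq.1 hpq.2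
    -- the coefficients on `ℤ × ℤ`
    obtain ⟨a', ha'⟩ : ∃ a' : ℤ × ℤ → ℚ, ∀ j : ℕ, ∀ k : ℤ, a' ((j : ℤ), k) = a (j, k) *
      (v l ^ j * u l ^ (k - e * j)) := ⟨fun q => a (q.1.toNat, q.2) *
      (v l ^ q.1.toNat * u l ^ (q.2 - e * q.1.toNat)), fun j k => by simp⟩
    have h1 := shear hSPN (m l) (S.image fun q : ℕ × ℤ => ((q.1 : ℤ), q.2)) a' e
      (by
        intro α' β' h'
        rw [Finset.sum_image hinj]
        have h2 := ha l α' β' h'
        rw [← mul_zero ((v l * u l ^ (-e)) ^ β'), ← h2, Finset.mul_sum]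
        apply Finset.sum_congr rfl
        intro q _
        rw [ha', Ring.choose_natCast]
        have h3 := aux1 (u l) (v l) hu0 e q.1 β' q.2
        push_cast
        calc a (q.1, q.2) * (v l ^ q.1 * u l ^ (q.2 - e * (q.1 : ℤ))) *
              (((q.1.choose β' : ℕ) : ℚ) * ((Ring.choose q.2 α' : ℤ) : ℚ))
            = a q * ((Ring.choose q.2 α' : ℤ) : ℚ) * (((q.1.choose β' : ℕ) : ℚ) *
              (v l ^ q.1 * u l ^ (q.2 - e * (q.1 : ℤ)))) := by ring
          _ = _ := by
            rw [h3]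
            ring) α β hαβ
    rw [Finset.sum_image hinj] at h1
    have h6 : v l ^ β ≠ 0 := pow_ne_zero _ hv0
    have h7 : v l ^ β * ∑ q ∈ S, a ((sh e q).1, (sh e q).2 + e * (sh e q).1) *
        ((((sh e q).1.choose β : ℕ) : ℚ) * v l ^ ((sh e q).1 - β) *
          (((Ring.choose (sh e q).2 α : ℤ) : ℚ) * u l ^ (sh e q).2)) = 0 := by
      rw [← h1, Finset.mul_sum]
      apply Finset.sum_congr rfl
      intro q _
      have h2 : ((sh e q).1, (sh e q).2 + e * (sh e q).1) = q := Prod.ext rfl (by simp [sh])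
      rw [h2, ha', Ring.choose_natCast]
      have h3 := aux2 (v l) q.1 β
      have h4 : (sh e q).1 = q.1 := rfl
      have h5 : (sh e q).2 = q.2 - e * q.1 := rfl
      rw [h4, h5]
      push_cast
      calc v l ^ β * (a q * (((q.1.choose β : ℕ) : ℚ) * v l ^ (q.1 - β) *
            (((Ring.choose (q.2 - e * (q.1 : ℤ)) α : ℤ) : ℚ) * u l ^ (q.2 - e * (q.1 : ℤ)))))
          = (v l ^ β * (((q.1.choose β : ℕ) : ℚ) * v l ^ (q.1 - β))) * (a q *
            (((Ring.choose (q.2 - e * (q.1 : ℤ)) α : ℤ) : ℚ) *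
              u l ^ (q.2 - e * (q.1 : ℤ)))) := by ring
        _ = _ := by
          rw [← h3]
          ring
    rcases mul_eq_zero.1 h7 with h8 | h8
    · exact absurd h8 h6
    · exact h8

/-- THE CELL LEMMA -/
theorem cell (hSPN : Tate.S_SPN) {n : ℕ} {m : Fin n → ℕ} {w h : Fin n → ℝ} {W H : ℝ}
    {A : Finset (Fin n)} (hC : Cut w h W H A) (t al be : ℝ) (e : ℤ) (hae : al ≤ e)
    (hE : 0 < al + be) (h1 : W * (al + be) ≤ (e + be) ^ 2 * H)
    (h2 : (e + be) * t * H ≤ ∑ i ∈ A, min (w i) (h i) * m i)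
    (h3 : 0 < ∑ i ∈ A, min (w i) (h i) * (m i : ℝ)) (S : Finset (ℕ × ℤ))
    (hS : ∀ q ∈ S, InC t al be q.1 q.2) :
    ∃ x y : Fin n → ℚ, (∀ i, 0 < x i) ∧ (∀ i, 0 < y i) ∧
      ∀ a : ℕ × ℤ → ℚ, (∀ l ∈ A, ∀ α β : ℕ, α + β < m l →
        ∑ q ∈ S, a q * (((q.1.choose β : ℕ) : ℚ) * y l ^ (q.1 - β) *
          (((Ring.choose q.2 α : ℤ) : ℚ) * x l ^ q.2)) = 0) → ∀ q ∈ S, a q = 0 := by
  classical
  obtain ⟨hW, hH, lam, hD, hl⟩ := tri m hC
  obtain ⟨V, hV⟩ : ∃ V : ℝ, V = (∑ i ∈ A, min (w i) (h i) * (m i : ℝ)) / H := ⟨_, rfl⟩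
  have hVH : V * H = ∑ i ∈ A, min (w i) (h i) * (m i : ℝ) := by
    rw [hV, div_mul_cancel₀ _ hH.ne']
  have hV0 : 0 < V := by
    rw [hV]
    exact div_pos h3 hH
  have hN : ∀ s, nr (S.image (sh e)) (s + 1) ≤ lam s := by
    intro s
    refine (count t (e - al) (al + be) (e * t) V (W / H) (by linarith) hE hV0 ?_ ?_ _ ?_ s).trans ?_
    · rw [mul_div_assoc', div_le_iff₀ hH]
      have : (e : ℝ) - al + (al + be) = e + be := by ring
      rw [this]
      linarith
    · have : (e : ℝ) - al + (al + be) = e + be := by ring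
      rw [this]
      have h4 : (e + be) * t * H ≤ V * H := by
        rw [hVH]
        exact h2
      exact le_of_mul_le_mul_right h4 hH
    · intro q' hq'
      rw [Finset.mem_image] at hq'
      obtain ⟨q, hq, rfl⟩ := hq'
      unfold InTE
      have h4 : (sh e q).1 = q.1 := rfl
      have h5 : (sh e q).2 = q.2 - e * q.1 := rfl
      rw [h4, h5]
      rcases hS q hq with ⟨h6, h7, h8⟩ | ⟨h6, h7⟩
      · left
        refine ⟨h6, ?_, ?_⟩
        · push_cast
          linarith
        · push_cast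
          linarith
      · right
        refine ⟨h6, ?_⟩
        rw [h7]
        push_cast
        rw [← h6]
        ring
    · by_contra hcon
      have h5 : (lam s : ℝ) < V - s * (W / H) := Nat.lt_ceil.1 (not_le.1 hcon)
      apply lt_irrefl (lam s)
      apply hl
      rw [← hVH]
      have h6 : (lam s : ℝ) * H < (V - s * (W / H)) * H := mul_lt_mul_of_pos_right h5 hH
      have h7 : (V - s * (W / H)) * H = V * H - W * s := by
        field_simp
      linarith
  obtain ⟨u, v, hu, hv, hI⟩ := FIN.emp _ A lam (dg_ite hD A subset_rfl) _ hN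
  have hI' := indep_sh hSPN hu hv hI
  refine ⟨u, fun i => v i * u i ^ (-e), hu, fun i => mul_pos (hv i) (zpow_pos (hu i) _),
    fun a ha => hI' a ?_⟩
  intro l α β hαβ
  simp only at hαβ
  by_cases hlA : l ∈ A
  · rw [if_pos hlA] at hαβ
    exact ha l hlA α β hαβ
  · rw [if_neg hlA] at hαβ
    omega

end Pool.Agent.Helper35.UQ.CELL
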